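import Pool.Agent.Work.MP_3d425c_gt.BorFinal

/-!
Dehn surgery on all three components of the Borromean rings: the fundamental group has a
non-trivial homomorphism to a left-ordered group exactly outside the L-space range.
-/

namespace Pool.Agent.Results.MP_3d425c_gt.BorromeanSurgeries

/-- The commutator `x y x⁻¹ y⁻¹`. -/
def comm (x y : FreeGroup (Fin 3)) : FreeGroup (Fin 3) := x * y * x⁻¹ * y⁻¹

/-- The meridian of the `i`-th component. -/
def mer (i : Fin 3) : FreeGroup (Fin 3) := FreeGroup.of i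

/-- The longitude of the `i`-th component. -/
def lon (i : Fin 3) : FreeGroup (Fin 3) := comm (mer (i + 1)) (mer (i + 2))⁻¹

/-- The relators of the link group and the three filling relators of slopes `p i / q i`. -/
def rels (p q : Fin 3 → ℤ) : Set (FreeGroup (Fin 3)) :=
  {r | ∃ i, r = comm (mer i) (lon i) ∨ r = mer i ^ p i * lon i ^ q i}

open Pool.Agent.Work.MP_3d425c_gt.Bor in
theorem result (p q : Fin 3 → ℤ) (hq : ∀ i, 0 < q i) (cop : ∀ i, IsCoprime (p i) (q i)) :
    (∃ (H : Type) (_ : Group H) (_ : LinearOrder H) (_ : MulLeftStrictMono H)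
      (f : PresentedGroup (rels p q) →* H), f ≠ 1) ↔
    ¬ (∀ i, q i ≤ p i) ∧ ¬ (∀ i, p i ≤ -q i) := by
  rw [Fin.forall_fin_succ, Fin.forall_fin_two, Fin.forall_fin_succ, Fin.forall_fin_two]
  refine Iff.trans ?_ (hlm_iff (hq 0) (hq 1) (hq 2) (cop 0) (cop 1) (cop 2))
  constructor
  · rintro ⟨H, _, _, _, f, hf⟩
    have key : ∀ i, Fill (f (.of i)) (f (.of (i + 1)) * (f (.of (i + 2)))⁻¹ *
        (f (.of (i + 1)))⁻¹ * f (.of (i + 2))) (p i) (q i) := fun i => by
      have h1 := congrArg f (PresentedGroup.one_of_mem (rels := rels p q) ⟨i, Or.inl rfl⟩)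
      have h2 := congrArg f (PresentedGroup.one_of_mem (rels := rels p q) ⟨i, Or.inr rfl⟩)
      simp only [comm, lon, mer, map_mul, map_inv, map_zpow, map_one, inv_inv] at h1 h2
      exact ⟨by rw [mul_inv_eq_one, mul_inv_eq_iff_eq_mul] at h1; exact h1, h2⟩
    refine ⟨H, inferInstance, inferInstance, inferInstance, f (.of 0), f (.of 1), f (.of 2),
      ⟨key 0, key 1, key 2⟩, fun ⟨h0, h1, h2⟩ => hf (PresentedGroup.ext fun i => ?_)⟩
    fin_cases i
    exacts [h0, h1, h2]
  · rintro ⟨H, _, _, _, a, b, c, ⟨h0, h1, h2⟩, hn⟩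
    have key : ∀ i : Fin 3, Fill (![a, b, c] i) (![a, b, c] (i + 1) * (![a, b, c] (i + 2))⁻¹ *
        (![a, b, c] (i + 1))⁻¹ * ![a, b, c] (i + 2)) (p i) (q i) := fun i => by
      fin_cases i
      exacts [h0, h1, h2]
    refine ⟨H, inferInstance, inferInstance, inferInstance,
      PresentedGroup.toGroup (f := ![a, b, c]) ?_, fun e => hn ?_⟩
    · rintro r ⟨i, rfl | rfl⟩
      · simp only [comm, lon, mer, map_mul, map_inv, FreeGroup.lift_apply_of, inv_inv]
        rw [mul_inv_eq_one, mul_inv_eq_iff_eq_mul]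
        exact (key i).1
      · simp only [comm, lon, mer, map_mul, map_inv, map_zpow, FreeGroup.lift_apply_of, inv_inv]
        exact (key i).2
    · have h : ∀ i, ![a, b, c] i = 1 := fun i =>
        (PresentedGroup.toGroup.of _).symm.trans (DFunLike.congr_fun e (.of i))
      exact ⟨h 0, h 1, h 2⟩

end Pool.Agent.Results.MP_3d425c_gt.BorromeanSurgeries
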