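import Pool.Agent.Work.MP_3d425c_gt.AADefs
import Pool.Agent.Work.MP_3d425c_gt.AAGlue

namespace Pool.Agent.Results.MP_3d425c_gt.TongueTwirlKnots

open Pool.Agent.Work.MP_3d425c_gt

/-- For an almost-alternating unknot diagram built by tongue and twirl moves, with a changemaker
coefficient at least three, every surgery of slope `a / b ≥ 2 g - 1` on the lift `K` of the
crossing arc of the dealternator has non-left-orderable fundamental group. -/
theorem result (d : Diag) (hd : Diag.Built d) (hs : ∃ i, 3 ≤ d.sigma i) (a : ℤ) (b : ℕ)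
    (hb : 0 < b) (hab : (d.twoGenus - 1) * b ≤ a) : ¬ IsLeftOrderable (d.Cover a b) :=
  Diag.cover_not_leftOrderable hd hs a b hb hab

end Pool.Agent.Results.MP_3d425c_gt.TongueTwirlKnots
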