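import Pool.Agent.Work.MP_3d425c_gt.W.Main
import Pool.Agent.Work.MP_3d425c_gt.W.NV

/-! Left orders on fundamental groups of Dehn fillings of veering triangulations
(pseudo-Anosov flows without perfect fits). -/

namespace Pool.Agent.Results.MP_3d425c_gt.VeeringFillings
open Pool.Agent.Work.MP_3d425c_gt Pool.Agent.Work.MP_3d425c_gt.VR

theorem result {T Γ Y M ι : Type} [Group Γ] [MulAction Γ T] [MulAction Γ Y] [TopologicalSpace Y]
    [SimplyConnectedSpace Y] [ContinuousConstSMul Γ Y] [TopologicalSpace M] (G : Gluing T)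
    [SimplyConnectedSpace (Space G)] (red up : T × Fin 4 × Fin 4 → Prop) (e : Γ → ℤ)
    (γ : T → Fin 4 → Γ) (p : Y → M) (N : ι → ℂ × Circle → M) (hV : Veering G red)
    (hD : Deck G red up e) (hS : Slopes G red γ) (hF : Filling γ p N)
    (hslope : ∀ t i, ∃ n, Wind G red t i (γ t i • t) i n ∧ |e (γ t i)| < |n| ∧
      (e (γ t i) ≠ 0 ∨ ∀ g : Γ, ¬ Wind G red t i (g • t) i 2)) (m : M) :
    Nontrivial (FundamentalGroup M m) ∧
      ∃ r : FundamentalGroup M m → FundamentalGroup M m → Prop,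
        IsStrictTotalOrder _ r ∧ ∀ a b c, r a b ↔ r (c * a) (c * b) :=
  Bor.w_main G red up e γ p N hV hD hS hF hslope m

/-- The case `Y = Space G`: `M` is a Dehn filling of the triangulated manifold `Space G / Γ`. -/
theorem dehn_filling {T Γ M ι : Type} [Group Γ] [MulAction Γ T] [TopologicalSpace M]
    (G : Gluing T) [SimplyConnectedSpace (Space G)] [MulAction Γ (Space G)]
    (hact : ∀ (g : Γ) t x, g • (Quot.mk _ ⟨t, x⟩ : Space G) = Quot.mk _ ⟨g • t, x⟩)
    (red up : T × Fin 4 × Fin 4 → Prop) (e : Γ → ℤ) (γ : T → Fin 4 → Γ) (p : Space G → M)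
    (N : ι → ℂ × Circle → M) (hV : Veering G red) (hD : Deck G red up e) (hS : Slopes G red γ)
    (hF : Filling γ p N)
    (hslope : ∀ t i, ∃ n, Wind G red t i (γ t i • t) i n ∧ |e (γ t i)| < |n| ∧
      (e (γ t i) ≠ 0 ∨ ∀ g : Γ, ¬ Wind G red t i (g • t) i 2)) (m : M) :
    Nontrivial (FundamentalGroup M m) ∧
      ∃ r : FundamentalGroup M m → FundamentalGroup M m → Prop,
        IsStrictTotalOrder _ r ∧ ∀ a b c, r a b ↔ r (c * a) (c * b) :=
  haveI := Bor.space_cont G hact
  result G red up e γ p N hV hD hS hF hslope m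

/-- The hypotheses of `result` can be satisfied: a filling of the once-punctured torus bundle
with monodromy `[[2, 1], [1, 1]]` and the universal cover of its veering triangulation. -/
theorem nonvacuous : ∃ (T Γ Y M ι : Type) (_ : Group Γ) (_ : MulAction Γ T) (_ : MulAction Γ Y)
    (_ : TopologicalSpace Y) (_ : SimplyConnectedSpace Y) (_ : ContinuousConstSMul Γ Y)
    (_ : TopologicalSpace M) (G : Gluing T) (_ : SimplyConnectedSpace (Space G))
    (red up : T × Fin 4 × Fin 4 → Prop) (e : Γ → ℤ) (γ : T → Fin 4 → Γ) (p : Y → M)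
    (N : ι → ℂ × Circle → M), Veering G red ∧ Deck G red up e ∧ Slopes G red γ ∧
      Filling γ p N ∧ ∀ t i, ∃ n, Wind G red t i (γ t i • t) i n ∧ |e (γ t i)| < |n| ∧
        (e (γ t i) ≠ 0 ∨ ∀ g : Γ, ¬ Wind G red t i (g • t) i 2) :=
  Bor.w_nonvacuous

end Pool.Agent.Results.MP_3d425c_gt.VeeringFillings
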